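import Mathlib

open Set Filter Topology

namespace Pool.Agent.Results.MP_48b6db_an.Yes

universe u

/-- `x` is a super Δ-point: `x` lies in the closed unit ball and, for every weakly open `U`
containing `x`, the supremum of `‖x - y‖` over `y` in the ball with `y ∈ U` is `1 + ‖x‖`. -/
def SuperDelta (𝕜 : Type) [RCLike 𝕜] {X : Type u} [NormedAddCommGroup X] [NormedSpace 𝕜 X]
    (x : X) : Prop :=
  ‖x‖ ≤ 1 ∧ ∀ U : Set (WeakSpace 𝕜 X), IsOpen U → toWeakSpace 𝕜 X x ∈ U →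
    IsLUB ((fun y => ‖x - y‖) '' {y : X | ‖y‖ ≤ 1 ∧ toWeakSpace 𝕜 X y ∈ U}) (1 + ‖x‖)

theorem result (𝕜 : Type) [RCLike 𝕜] (X : Type u) [NormedAddCommGroup X] [NormedSpace 𝕜 X]
    [CompleteSpace X] (x : X) (hx : ‖x‖ = 1) (h : SuperDelta 𝕜 x) (r : ℝ) (h0 : 0 < r)
    (h1 : r < 1) : SuperDelta 𝕜 ((r : 𝕜) • x) := by
  have hn : ‖(r : 𝕜) • x‖ = r := by
    rw [norm_smul, hx, mul_one, RCLike.norm_ofReal, abs_of_pos h0]
  refine ⟨by rw [hn]; exact h1.le, fun U hU hxU => ⟨?_, ?_⟩⟩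
  · rintro _ ⟨y, hy, rfl⟩
    exact (norm_sub_le _ _).trans (by linarith [hy.1])
  · intro b hb
    set s : ℝ := (1 + r) / 2 with hs
    have hs0 : 0 < s := by positivity
    have hs1 : s < 1 := by linarith
    let φ : WeakSpace 𝕜 X → WeakSpace 𝕜 X := fun y =>
      (s : 𝕜) • y - ((1 - s : ℝ) : 𝕜) • toWeakSpace 𝕜 X x
    have hφ : Continuous φ := (continuous_const_smul _).sub continuous_const
    have e : ∀ y : X, φ (toWeakSpace 𝕜 X y) =
        toWeakSpace 𝕜 X ((s : 𝕜) • y - ((1 - s : ℝ) : 𝕜) • x) := by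
      intro y; simp only [φ, map_sub, map_smul]
    have ex : (s : 𝕜) • x - ((1 - s : ℝ) : 𝕜) • x = (r : 𝕜) • x := by
      rw [← sub_smul, ← RCLike.ofReal_sub]
      congr 2; rw [hs]; ring
    have h2 : 1 + ‖x‖ ≤ b / s := (h.2 (φ ⁻¹' U) (hU.preimage hφ) (by
      rw [mem_preimage, e, ex]; exact hxU)).2 (by
      rintro _ ⟨y, hy, rfl⟩
      have h3 : ‖(r : 𝕜) • x - ((s : 𝕜) • y - ((1 - s : ℝ) : 𝕜) • x)‖ ≤ b := by
        refine hb ⟨_, ⟨?_, ?_⟩, rfl⟩
        · refine (norm_sub_le _ _).trans ?_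
          rw [norm_smul, norm_smul, hx, RCLike.norm_ofReal, RCLike.norm_ofReal, abs_of_pos hs0,
            abs_of_pos (by linarith)]
          nlinarith [hy.1]
        · rw [← e]; exact hy.2
      have h4 : (r : 𝕜) • x - ((s : 𝕜) • y - ((1 - s : ℝ) : 𝕜) • x) = (s : 𝕜) • (x - y) := by
        rw [← ex, smul_sub]; abel
      rw [h4, norm_smul, RCLike.norm_ofReal, abs_of_pos hs0] at h3
      simp only
      rw [le_div_iff₀ hs0]
      linarith)
    rw [hx, le_div_iff₀ hs0] at h2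
    rw [hn]
    linarith

end Pool.Agent.Results.MP_48b6db_an.Yes
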